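import Pool.Agent.H.MP_711634_co.T1
import Pool.Agent.H.MP_711634_co.T2

namespace Pool.Agent.Results.MP_711634_co.No

open Finset H.MP_44674b_co.D

variable {X : Type} [Fintype X] {d : ℕ}

/-- `K a b c` are the Krein parameters of the idempotents `E` -/
def Krein (E : Fin (d + 1) → Matrix X X ℂ) (K : Fin (d + 1) → Fin (d + 1) → Fin (d + 1) → ℝ) :
    Prop :=
  ∀ a b, (E a).hadamard (E b) = (Fintype.card X : ℂ)⁻¹ • ∑ c, (K a b c : ℂ) • E c

/-- `σ` expands the triangle tensor of `A i, A j, A k` in the star tensors of the idempotents with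
positive Krein parameter -/
def DeltaWye (r : X → X → Fin (d + 1)) (E : Fin (d + 1) → Matrix X X ℂ)
    (K : Fin (d + 1) → Fin (d + 1) → Fin (d + 1) → ℝ) (i j k : Fin (d + 1))
    (σ : Fin (d + 1) × Fin (d + 1) × Fin (d + 1) → ℂ) : Prop :=
  tD (adj r i) (adj r j) (adj r k) =
    ∑ s ∈ univ.filter fun s : Fin (d + 1) × Fin (d + 1) × Fin (d + 1) => 0 < K s.1 s.2.1 s.2.2,
      σ s • tY (E s.1) (E s.2.1) (E s.2.2)

open H.MP_711634_co

lemma dw_iff (r : Fin 16 → Fin 16 → Fin 4) (N : I3 3 → I3 3 → ℤ)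
    (h : ∀ p x y z, yy r p x y z = N p (r x z, r x y, r y z)) (σ : I3 3 → ℂ) :
    DeltaWye r (EE r) (fun a b c => KK a b c) 2 2 2 σ ↔ ∀ x y z,
      ∑ s ∈ univ.filter (fun s : I3 3 => 0 < KK s.1 s.2.1 s.2.2),
        σ s * YE N s (r x z, r x y, r y z) = if (2, 2, 2) = (r x z, r x y, r y z) then 4096 else 0 := by
  unfold DeltaWye
  simp only [funext_iff, Finset.sum_apply, Pi.smul_apply, smul_eq_mul, tY_E r N h,
    tD_adj r (2, 2, 2), Int.cast_pos, mul_left_comm (σ _), ← mul_sum]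
  refine forall₃_congr fun x y z => ?_
  split_ifs
  · constructor <;> intro e
    · linear_combination (-4096) * e
    · rw [e]; norm_num
  · constructor <;> intro e
    · linear_combination (-4096) * e
    · rw [e]; norm_num

lemma dw_ex (r : Fin 16 → Fin 16 → Fin 4) (N : I3 3 → I3 3 → ℤ)
    (h : ∀ p x y z, yy r p x y z = N p (r x z, r x y, r y z)) (S : I3 3 → ℤ)
    (ho : ∀ x y z, ok (r x z, r x y, r y z) = true)
    (hs : ∀ t : I3 3, ok t = true → ∑ s ∈ univ.filter (fun s : I3 3 => 0 < KK s.1 s.2.1 s.2.2),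
      S s * YE N s t = if (2, 2, 2) = t then 4096 else 0) :
    ∃ σ, DeltaWye r (EE r) (fun a b c => KK a b c) 2 2 2 σ :=
  ⟨fun s => S s, (dw_iff r N h _).2 fun x y z => by exact_mod_cast hs _ (ho x y z)⟩

def ry : Fin 8 → Fin 16 := ![1, 1, 6, 6, 1, 1, 6, 6]
def rz : Fin 8 → Fin 16 := ![2, 8, 2, 1, 9, 6, 7, 11]
def ww : Fin 8 → ℤ := ![3, 1, 1, -1, 1, -1, -1, 1]
def ty (m : Fin 8) : I3 3 := (r2 0 (rz m), r2 0 (ry m), r2 (ry m) (rz m))

set_option maxRecDepth 100000 in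
lemma k0 : ∀ q, ∑ m, ww m * N2 q (ty m) = 4 * N1 q (r1 0 5, r1 0 1, r1 1 5) := by
  decide +kernel
lemma k1 (s : I3 3) : ∑ m, ww m * YE N2 s (ty m) = 4 * YE N1 s (r1 0 5, r1 0 1, r1 1 5) := by
  simp only [YE, mul_sum]
  rw [sum_comm]
  refine sum_congr rfl fun q _ => ?_
  rw [mul_left_comm, ← k0, mul_sum]
  exact sum_congr rfl fun _ _ => by ring
lemma k2 : ∑ m, ww m * (if (2, 2, 2) = ty m then 4096 else 0) = 12288 := by decide +kernel
lemma k3 : (2, 2, 2) = (r1 0 5, r1 0 1, r1 1 5) := by decide +kernel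

theorem result : ∃ (n d : ℕ) (r r' : Fin n → Fin n → Fin (d + 1))
    (p : Fin (d + 1) → Fin (d + 1) → Fin (d + 1) → ℕ)
    (E E' : Fin (d + 1) → Matrix (Fin n) (Fin n) ℂ)
    (K : Fin (d + 1) → Fin (d + 1) → Fin (d + 1) → ℝ),
    IsScheme r p ∧ IsScheme r' p ∧ ExactlyTriplyRegular r ∧ ExactlyTriplyRegular r' ∧
    PrimIdem r E ∧ PrimIdem r' E' ∧
    (∀ j, ∃ a : Fin (d + 1) → ℂ, E j = ∑ i, a i • adj r i ∧ E' j = ∑ i, a i • adj r' i) ∧
    Krein E K ∧ Krein E' K ∧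
    ∃ i j k, 0 < p i j k ∧ (∃ σ, DeltaWye r E K i j k σ) ∧ (∃ σ', DeltaWye r' E' K i j k σ') ∧
      ∀ σ σ', DeltaWye r E K i j k σ → DeltaWye r' E' K i j k σ' →
        ∃ a b c, 0 < K a b c ∧ σ (a, b, c) ≠ σ' (a, b, c) := by
  refine ⟨16, 3, r1, r2, pp, EE r1, EE r2, fun a b c => KK a b c, sch1, sch2,
    etr r1 N1 C1 8 (by decide) h1 fun p x y z => cc1 p _ (ok1 x y z),
    etr r2 N2 C2 8 (by decide) h2 fun p x y z => cc2 p _ (ok2 x y z),
    prim r1 QQ (fun x => (sch1.diag x x).2 rfl) (by decide +kernel) (by decide +kernel)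
      (by simpa using qa1) (by simpa using qb1),
    prim r2 QQ (fun x => (sch2.diag x x).2 rfl) (by decide +kernel) (by decide +kernel)
      (by simpa using qa2) (by simpa using qb2),
    fun j => ⟨_, mtch r1 j, mtch r2 j⟩, krein r1, krein r2, 2, 2, 2, by decide +kernel,
    dw_ex r1 N1 h1 S1 ok1 ss1, dw_ex r2 N2 h2 S2 ok2 ss2, fun σ σ' e e' => ?_⟩
  by_contra c
  push Not at c
  have a := (dw_iff r1 N1 h1 σ).1 e 0 1 5
  have b : ∀ m, ∑ s ∈ univ.filter (fun s : I3 3 => 0 < KK s.1 s.2.1 s.2.2), σ' s * YE N2 s (ty m) =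
      if (2, 2, 2) = ty m then 4096 else 0 := fun m => (dw_iff r2 N2 h2 σ').1 e' 0 (ry m) (rz m)
  rw [if_pos k3] at a
  have k1' : ∀ s, ∑ m, (ww m : ℂ) * YE N2 s (ty m) = 4 * YE N1 s (r1 0 5, r1 0 1, r1 1 5) :=
    fun s => by exact_mod_cast k1 s
  have k2' : ∑ m, (ww m : ℂ) * (if (2, 2, 2) = ty m then 4096 else 0) = 12288 := by
    exact_mod_cast k2
  have : (12288 : ℂ) = 4 * 4096 := by
    rw [← k2']
    simp only [← b]
    simp only [← a, mul_sum]
    rw [sum_comm]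
    refine sum_congr rfl fun s hs => ?_
    rw [← c s.1 s.2.1 s.2.2 (by exact_mod_cast (mem_filter.1 hs).2), mul_left_comm, ← k1', mul_sum]
    exact sum_congr rfl fun m _ => by ring
  norm_num at this

end Pool.Agent.Results.MP_711634_co.No
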